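import Mathlib

open Cardinal Module

universe u

namespace Pool.Agent.Results.MP_f0da7f_al.SubspaceLattice

section Fin

variable {F : Type*} [Field F]

/-- the polynomial attached to an endomorphism `N` -/
noncomputable def pol {n : ℕ} (N : Matrix (Fin n) (Fin n) F) : MvPolynomial (Fin n × Fin n) F :=
  (Matrix.mvPolynomialX (Fin n) (Fin n) F * N.map MvPolynomial.C +
    (1 - N).map MvPolynomial.C).det

theorem eval_pol {n : ℕ} (N M : Matrix (Fin n) (Fin n) F) :
    MvPolynomial.eval (fun p : Fin n × Fin n => M p.1 p.2) (pol N) = (M * N + (1 - N)).det := by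
  unfold pol
  rw [RingHom.map_det]
  congr 1
  rw [map_add, map_mul, Matrix.mvPolynomialX_mapMatrix_eval]
  congr 2
  · ext i j
    simp
  · ext i j
    simp

theorem exists_proj {E : Type*} [AddCommGroup E] [Module F E] (A B : Submodule F E)
    (h : A ⊓ B = ⊥) : ∃ M : E →ₗ[F] E, (∀ x ∈ A, M x = x) ∧ (∀ x ∈ B, M x = 0) ∧
      ∀ x, M x ∈ A := by
  obtain ⟨D, hD1, hD2⟩ := IsModularLattice.exists_disjoint_and_sup_eq (le_top : A ⊔ B ≤ ⊤)
  have hAB : Disjoint A B := disjoint_iff.mpr h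
  have hc : IsCompl A (B ⊔ D) :=
    ⟨hAB.disjoint_sup_right_of_disjoint_sup_left hD1, by
      rw [codisjoint_iff, ← sup_assoc, hD2]⟩
  refine ⟨A.subtype ∘ₗ A.projectionOnto (B ⊔ D) hc, ?_, ?_, ?_⟩
  · intro x hx
    have := Submodule.projectionOnto_apply_left hc ⟨x, hx⟩
    simp only [LinearMap.comp_apply]
    exact congrArg A.subtype this
  · intro x hx
    have := Submodule.projectionOnto_apply_right hc ⟨x, Submodule.mem_sup_left hx⟩
    simp only [LinearMap.comp_apply]
    exact congrArg A.subtype this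
  · intro x
    simp

theorem fin_lemma {E : Type*} [AddCommGroup E] [Module F E] [FiniteDimensional F E]
    (𝒜 : Set (Submodule F E)) :
    ∃ T : Finset (Submodule F E), (T : Set (Submodule F E)) ⊆ 𝒜 ∧
      ∀ A ∈ 𝒜, ∀ B : Submodule F E, A ⊓ B = ⊥ → ∃ A' ∈ T, A' ⊓ B = ⊥ := by
  classical
  let n := finrank F E
  let b : Basis (Fin n) F E := finBasis F E
  have hN : ∀ A : Submodule F E, ∃ N : E →ₗ[F] E, (∀ x ∈ A, N x = x) ∧ ∀ x, N x ∈ A := by
    intro A
    obtain ⟨N, h1, -, h3⟩ := exists_proj A ⊥ (inf_bot_eq A)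
    exact ⟨N, h1, h3⟩
  choose N hN1 hN2 using hN
  let p : Submodule F E → MvPolynomial (Fin n × Fin n) F :=
    fun A => pol (LinearMap.toMatrix b b (N A))
  have hp : ∀ (A : Submodule F E) (M : E →ₗ[F] E),
      MvPolynomial.eval (fun q : Fin n × Fin n => LinearMap.toMatrix b b M q.1 q.2) (p A)
        = LinearMap.det (M ∘ₗ N A + (1 - N A)) := by
    intro A M
    change MvPolynomial.eval (fun q : Fin n × Fin n => LinearMap.toMatrix b b M q.1 q.2)
      (pol (LinearMap.toMatrix b b (N A))) = _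
    rw [eval_pol, ← LinearMap.det_toMatrix b]
    congr 1
    rw [map_add, map_sub, LinearMap.toMatrix_comp b b b, LinearMap.toMatrix_one]
  have hfg : (Ideal.span (p '' 𝒜)).FG := IsNoetherian.noetherian _
  obtain ⟨s, hs, hspan⟩ := (Submodule.fg_span_iff_fg_span_finset_subset (p '' 𝒜)).mp hfg
  obtain ⟨T, hT, rfl⟩ := Finset.subset_set_image_iff.mp hs
  refine ⟨T, hT, ?_⟩
  intro A hA B hAB
  by_contra hcon
  push Not at hcon
  obtain ⟨M, hM1, hM2, -⟩ := exists_proj A B hAB
  let ev : MvPolynomial (Fin n × Fin n) F →+* F :=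
    MvPolynomial.eval (fun q : Fin n × Fin n => LinearMap.toMatrix b b M q.1 q.2)
  have h1 : ev (p A) = 1 := by
    change MvPolynomial.eval _ (p A) = 1
    rw [hp]
    have : M ∘ₗ N A + (1 - N A) = LinearMap.id := by
      ext x
      simp only [LinearMap.add_apply, LinearMap.comp_apply, LinearMap.sub_apply,
        LinearMap.id_apply, hM1 _ (hN2 A x), Module.End.one_apply]
      abel
    rw [this, LinearMap.det_id]
  have h2 : ∀ A' ∈ T, ev (p A') = 0 := by
    intro A' hA'
    change MvPolynomial.eval _ (p A') = 0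
    rw [hp]
    by_contra hdet
    apply hcon A' hA'
    rw [Submodule.eq_bot_iff]
    rintro x ⟨hx1, hx2⟩
    have hinj : LinearMap.ker (M ∘ₗ N A' + (1 - N A')) = ⊥ := by
      by_contra hker
      exact hdet (LinearMap.det_eq_zero_iff_ker_ne_bot.mpr hker)
    have hx : x ∈ LinearMap.ker (M ∘ₗ N A' + (1 - N A')) := by
      rw [LinearMap.mem_ker]
      simp only [LinearMap.add_apply, LinearMap.comp_apply, LinearMap.sub_apply,
        Module.End.one_apply, hN1 A' x hx1, hM2 x hx2]
      abel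
    rw [hinj] at hx
    exact (Submodule.mem_bot F).mp hx
  have h3 : Ideal.span (p '' 𝒜) ≤ RingHom.ker ev := by
    change Submodule.span _ (p '' 𝒜) ≤ _
    rw [hspan, Submodule.span_le]
    intro q hq
    rw [Finset.coe_image] at hq
    obtain ⟨A', hA', rfl⟩ := hq
    exact h2 A' hA'
  have h4 : ev (p A) = 0 := h3 (Ideal.subset_span ⟨A, hA, rfl⟩)
  rw [h1] at h4
  exact one_ne_zero h4

theorem fin_lemma' {V : Type*} [AddCommGroup V] [Module F V] (E : Submodule F V)
    [FiniteDimensional F E] (𝒜 : Set (Submodule F V)) :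
    ∃ T : Finset (Submodule F V), (T : Set (Submodule F V)) ⊆ 𝒜 ∧
      ∀ A ∈ 𝒜, ∀ B : Submodule F V, A ⊓ B ⊓ E = ⊥ → ∃ A' ∈ T, A' ⊓ B ⊓ E = ⊥ := by
  classical
  have key : ∀ A B : Submodule F V,
      A ⊓ B ⊓ E = ⊥ ↔ A.comap E.subtype ⊓ B.comap E.subtype = ⊥ := by
    intro A B
    constructor
    · intro h
      rw [Submodule.eq_bot_iff]
      rintro ⟨x, hx⟩ ⟨h1, h2⟩
      have : x ∈ A ⊓ B ⊓ E := ⟨⟨h1, h2⟩, hx⟩
      rw [h] at this
      exact Subtype.ext ((Submodule.mem_bot F).mp this)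
    · intro h
      rw [Submodule.eq_bot_iff]
      rintro x ⟨⟨h1, h2⟩, hx⟩
      have : (⟨x, hx⟩ : E) ∈ A.comap E.subtype ⊓ B.comap E.subtype := ⟨h1, h2⟩
      rw [h] at this
      exact congrArg Subtype.val ((Submodule.mem_bot F).mp this)
  obtain ⟨T, hT, hprop⟩ := fin_lemma ((fun A : Submodule F V => A.comap E.subtype) '' 𝒜)
  obtain ⟨T', hT', rfl⟩ := Finset.subset_set_image_iff.mp hT
  refine ⟨T', hT', ?_⟩
  intro A hA B hAB
  obtain ⟨A', hA', h⟩ := hprop _ ⟨A, hA, rfl⟩ (B.comap E.subtype) ((key A B).mp hAB)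
  obtain ⟨A'', hA'', rfl⟩ := Finset.mem_image.mp hA'
  exact ⟨A'', hA'', (key A'' B).mpr h⟩

end Fin


/-! ### Ideals and filters -/

section Defs

variable (F V : Type u) [Field F] [AddCommGroup V] [Module F V]

/-- `I` is an ideal of the lattice of subspaces of `V`. -/
def IsIdl (I : Set (Submodule F V)) : Prop :=
  ⊥ ∈ I ∧ ⊤ ∉ I ∧ (∀ U ∈ I, ∀ W, W ≤ U → W ∈ I) ∧ ∀ U ∈ I, ∀ W ∈ I, U ⊔ W ∈ I

/-- `Φ` is a filter on the lattice of subspaces of `V`. -/
def IsFlt (Φ : Set (Submodule F V)) : Prop :=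
  ⊤ ∈ Φ ∧ ⊥ ∉ Φ ∧ (∀ U ∈ Φ, ∀ W, U ≤ W → W ∈ Φ) ∧ ∀ U ∈ Φ, ∀ W ∈ Φ, U ⊓ W ∈ Φ

/-- `I` is a maximal ideal. -/
def IsMaxIdl (I : Set (Submodule F V)) : Prop :=
  IsIdl F V I ∧ ∀ J, IsIdl F V J → I ⊆ J → J = I

/-- `Φ` is a maximal filter. -/
def IsMaxFlt (Φ : Set (Submodule F V)) : Prop :=
  IsFlt F V Φ ∧ ∀ Ψ, IsFlt F V Ψ → Φ ⊆ Ψ → Ψ = Φ

end Defs

section General

variable {F V : Type u} [Field F] [AddCommGroup V] [Module F V]

theorem exists_maxIdl {I : Set (Submodule F V)} (hI : IsIdl F V I) :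
    ∃ J, IsMaxIdl F V J ∧ I ⊆ J := by
  obtain ⟨m, hm, hmax⟩ := zorn_subset_nonempty {J | IsIdl F V J} (by
    intro c hc hchain hne
    refine ⟨⋃₀ c, ?_, fun s hs => Set.subset_sUnion_of_mem hs⟩
    obtain ⟨s0, hs0⟩ := hne
    refine ⟨⟨s0, hs0, (hc hs0).1⟩, ?_, ?_, ?_⟩
    · rintro ⟨s, hs, h⟩
      exact (hc hs).2.1 h
    · rintro U ⟨s, hs, h⟩ W hW
      exact ⟨s, hs, (hc hs).2.2.1 U h W hW⟩
    · rintro U ⟨s, hs, h⟩ W ⟨t, ht, h'⟩
      rcases hchain.total hs ht with hst | hst
      · exact ⟨t, ht, (hc ht).2.2.2 U (hst h) W h'⟩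
      · exact ⟨s, hs, (hc hs).2.2.2 U h W (hst h')⟩) I hI
  exact ⟨m, ⟨hmax.1, fun J hJ hmJ => Set.Subset.antisymm (hmax.2 hJ hmJ) hmJ⟩, hm⟩

theorem exists_maxFlt {I : Set (Submodule F V)} (hI : IsFlt F V I) :
    ∃ J, IsMaxFlt F V J ∧ I ⊆ J := by
  obtain ⟨m, hm, hmax⟩ := zorn_subset_nonempty {J | IsFlt F V J} (by
    intro c hc hchain hne
    refine ⟨⋃₀ c, ?_, fun s hs => Set.subset_sUnion_of_mem hs⟩
    obtain ⟨s0, hs0⟩ := hne
    refine ⟨⟨s0, hs0, (hc hs0).1⟩, ?_, ?_, ?_⟩
    · rintro ⟨s, hs, h⟩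
      exact (hc hs).2.1 h
    · rintro U ⟨s, hs, h⟩ W hW
      exact ⟨s, hs, (hc hs).2.2.1 U h W hW⟩
    · rintro U ⟨s, hs, h⟩ W ⟨t, ht, h'⟩
      rcases hchain.total hs ht with hst | hst
      · exact ⟨t, ht, (hc ht).2.2.2 U (hst h) W h'⟩
      · exact ⟨s, hs, (hc hs).2.2.2 U h W (hst h')⟩) I hI
  exact ⟨m, ⟨hmax.1, fun J hJ hmJ => Set.Subset.antisymm (hmax.2 hJ hmJ) hmJ⟩, hm⟩

/-- a family of subspaces all of whose finite joins are proper lies in a maximal ideal -/
theorem exists_maxIdl_of_family (𝒰 : Set (Submodule F V))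
    (h : ∀ s : Finset (Submodule F V), (s : Set (Submodule F V)) ⊆ 𝒰 → s.sup id ≠ ⊤) :
    ∃ J, IsMaxIdl F V J ∧ 𝒰 ⊆ J := by
  classical
  obtain ⟨J, hJ, hsub⟩ := exists_maxIdl (F := F) (V := V)
    (I := {W | ∃ s : Finset (Submodule F V), (s : Set (Submodule F V)) ⊆ 𝒰 ∧ W ≤ s.sup id}) (by
      refine ⟨⟨∅, by simp, bot_le⟩, ?_, ?_, ?_⟩
      · rintro ⟨s, hs, hle⟩
        exact h s hs (top_le_iff.mp hle)
      · rintro U ⟨s, hs, hle⟩ W hW
        exact ⟨s, hs, hW.trans hle⟩
      · rintro U ⟨s, hs, hle⟩ W ⟨t, ht, hle'⟩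
        refine ⟨s ∪ t, by simp [hs, ht], ?_⟩
        rw [Finset.sup_union]
        exact sup_le_sup hle hle')
  exact ⟨J, hJ, fun U hU => hsub ⟨{U}, by simpa using hU, by simp⟩⟩

/-- a family of subspaces all of whose finite meets are nonzero lies in a maximal filter -/
theorem exists_maxFlt_of_family (𝒰 : Set (Submodule F V))
    (h : ∀ s : Finset (Submodule F V), (s : Set (Submodule F V)) ⊆ 𝒰 → s.inf id ≠ ⊥) :
    ∃ J, IsMaxFlt F V J ∧ 𝒰 ⊆ J := by
  classical
  obtain ⟨J, hJ, hsub⟩ := exists_maxFlt (F := F) (V := V)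
    (I := {W | ∃ s : Finset (Submodule F V), (s : Set (Submodule F V)) ⊆ 𝒰 ∧ s.inf id ≤ W}) (by
      refine ⟨⟨∅, by simp, le_top⟩, ?_, ?_, ?_⟩
      · rintro ⟨s, hs, hle⟩
        exact h s hs (le_bot_iff.mp hle)
      · rintro U ⟨s, hs, hle⟩ W hW
        exact ⟨s, hs, hle.trans hW⟩
      · rintro U ⟨s, hs, hle⟩ W ⟨t, ht, hle'⟩
        refine ⟨s ∪ t, by simp [hs, ht], ?_⟩
        rw [Finset.inf_union]
        exact inf_le_inf hle hle')
  exact ⟨J, hJ, fun U hU => hsub ⟨{U}, by simpa using hU, by simp⟩⟩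

/-- a subspace outside a maximal filter is disjoint from a member -/
theorem IsMaxFlt.exists_disjoint {Φ : Set (Submodule F V)} (h : IsMaxFlt F V Φ)
    {W : Submodule F V} (hW : W ∉ Φ) : ∃ U ∈ Φ, U ⊓ W = ⊥ := by
  by_contra hcon
  push Not at hcon
  apply hW
  have hΨ : IsFlt F V {X | ∃ U ∈ Φ, U ⊓ W ≤ X} := by
    refine ⟨⟨⊤, h.1.1, le_top⟩, ?_, ?_, ?_⟩
    · rintro ⟨U, hU, hle⟩
      exact hcon U hU (le_bot_iff.mp hle)
    · rintro X ⟨U, hU, hle⟩ Y hXY
      exact ⟨U, hU, hle.trans hXY⟩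
    · rintro X ⟨U, hU, hle⟩ Y ⟨U', hU', hle'⟩
      refine ⟨U ⊓ U', h.1.2.2.2 U hU U' hU', le_inf ?_ ?_⟩
      · exact le_trans (inf_le_inf_right W inf_le_left) hle
      · exact le_trans (inf_le_inf_right W inf_le_right) hle'
  have := h.2 _ hΨ (fun X hX => ⟨X, hX, inf_le_left⟩)
  rw [← this]
  exact ⟨⊤, h.1.1, inf_le_right⟩

theorem IsFlt.inf_ne_bot {Φ : Set (Submodule F V)} (h : IsFlt F V Φ) {U W : Submodule F V}
    (hU : U ∈ Φ) (hW : W ∈ Φ) : U ⊓ W ≠ ⊥ := by
  intro hb
  exact h.2.1 (hb ▸ h.2.2.2 U hU W hW)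

/-- lower bound for the number of maximal ideals from an independent family -/
theorem two_power_le {T : Type u} (U W : T → Submodule F V) (hUW : ∀ t, U t ⊔ W t = ⊤)
    (hind : ∀ s s' : Finset T, Disjoint s s' → s.sup U ⊔ s'.sup W ≠ ⊤) :
    2 ^ #T ≤ #{I : Set (Submodule F V) // IsMaxIdl F V I} := by
  classical
  have h : ∀ C : Set T, ∃ J, IsMaxIdl F V J ∧ (U '' C ∪ W '' Cᶜ) ⊆ J := by
    intro C
    apply exists_maxIdl_of_family
    intro s hs
    -- split `s`
    have h1 : ∀ X ∈ s, (∃ t, t ∈ C ∧ U t = X) ∨ (∃ t, t ∉ C ∧ W t = X) := by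
      intro X hX
      rcases hs hX with ⟨t, ht, rfl⟩ | ⟨t, ht, rfl⟩
      · exact Or.inl ⟨t, ht, rfl⟩
      · exact Or.inr ⟨t, ht, rfl⟩
    have h2 : ∀ X : Submodule F V, ∃ (a b : Finset T), (∀ t ∈ a, t ∈ C) ∧ (∀ t ∈ b, t ∉ C) ∧
        (X ∈ s → X ≤ a.sup U ⊔ b.sup W) := by
      intro X
      by_cases hX : X ∈ s
      · rcases h1 X hX with ⟨t, ht, rfl⟩ | ⟨t, ht, rfl⟩
        · exact ⟨{t}, ∅, by simpa using ht, by simp, by simp⟩
        · exact ⟨∅, {t}, by simp, by simpa using ht, by simp⟩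
      · exact ⟨∅, ∅, by simp, by simp, fun h => absurd h hX⟩
    choose a b ha hb hab using h2
    intro htop
    apply hind (s.biUnion a) (s.biUnion b)
    · rw [Finset.disjoint_left]
      intro t h3 h4
      obtain ⟨X, -, hX⟩ := Finset.mem_biUnion.mp h3
      obtain ⟨Y, -, hY⟩ := Finset.mem_biUnion.mp h4
      exact hb Y t hY (ha X t hX)
    · rw [eq_top_iff, ← htop]
      refine Finset.sup_le fun X hX => (hab X hX).trans (sup_le_sup ?_ ?_)
      · exact Finset.sup_mono (Finset.subset_biUnion_of_mem a hX)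
      · exact Finset.sup_mono (Finset.subset_biUnion_of_mem b hX)
  choose J hJ hJs using h
  rw [← Cardinal.mk_set]
  refine Cardinal.mk_le_of_injective (f := fun C => (⟨J C, hJ C⟩ :
    {I : Set (Submodule F V) // IsMaxIdl F V I})) ?_
  intro C D hCD
  have hCD : J C = J D := congrArg Subtype.val hCD
  have key : ∀ C D : Set T, J C = J D → C ⊆ D := by
    intro C D hCD t ht
    by_contra htD
    have h1 : U t ∈ J C := hJs C (Or.inl ⟨t, ht, rfl⟩)
    have h2 : W t ∈ J D := hJs D (Or.inr ⟨t, htD, rfl⟩)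
    rw [← hCD] at h2
    have h3 := (hJ C).1.2.2.2 _ h1 _ h2
    rw [hUW] at h3
    exact (hJ C).1.2.1 h3
  exact Set.Subset.antisymm (key C D hCD) (key D C hCD.symm)

/-- lower bound for the number of maximal filters from an independent family -/
theorem power_le {T Λ : Type u} (U : T → Λ → Submodule F V)
    (hU : ∀ t a b, a ≠ b → U t a ⊓ U t b = ⊥)
    (hind : ∀ (s : Finset T) (φ : T → Λ), (s.inf fun t => U t (φ t)) ≠ ⊥) :
    #Λ ^ #T ≤ #{I : Set (Submodule F V) // IsMaxFlt F V I} := by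
  classical
  have h : ∀ φ : T → Λ, ∃ J, IsMaxFlt F V J ∧ (Set.range fun t => U t (φ t)) ⊆ J := by
    intro φ
    apply exists_maxFlt_of_family
    intro s hs hbot
    rw [← Set.image_univ] at hs
    obtain ⟨s', -, rfl⟩ := Finset.subset_set_image_iff.mp hs
    rw [Finset.inf_image] at hbot
    exact hind s' φ hbot
  choose J hJ hJs using h
  rw [Cardinal.power_def]
  refine Cardinal.mk_le_of_injective (f := fun φ => (⟨J φ, hJ φ⟩ :
    {I : Set (Submodule F V) // IsMaxFlt F V I})) ?_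
  intro φ ψ hφψ
  have hφψ : J φ = J ψ := congrArg Subtype.val hφψ
  funext t
  by_contra hne
  have h1 : U t (φ t) ∈ J φ := hJs φ ⟨t, rfl⟩
  have h2 : U t (ψ t) ∈ J φ := by
    rw [hφψ]
    exact hJs ψ ⟨t, rfl⟩
  exact (hJ φ).1.inf_ne_bot h1 h2 (hU t _ _ hne)

end General

/-! ### Cardinal estimates -/

section Card

variable {F V : Type u} [Field F] [AddCommGroup V] [Module F V]

theorem two_le_mk_field : (2 : Cardinal.{u}) ≤ #F := by
  have : Nontrivial F := inferInstance
  exact Cardinal.two_le_iff.mpr this.exists_pair_ne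

theorem aleph0_le_two_power {κ : Cardinal.{u}} (h : ℵ₀ ≤ κ) : ℵ₀ ≤ 2 ^ κ :=
  h.trans (Cardinal.cantor κ).le

theorem mk_V_le {ι : Type u} (b : Basis ι F V) : #V ≤ #F ^ #ι := by
  rw [Cardinal.mk_congr b.repr.toEquiv, Cardinal.power_def]
  exact Cardinal.mk_le_of_injective (f := fun v : ι →₀ F => (v : ι → F)) DFunLike.coe_injective

theorem mk_submodule_le {ι : Type u} (b : Basis ι F V) (hι : ℵ₀ ≤ #ι) :
    #(Submodule F V) ≤ #F ^ #ι := by
  have h1 : #(Submodule F V) ≤ #(V →ₗ[F] V) := by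
    refine Cardinal.mk_le_of_surjective (f := fun f : V →ₗ[F] V => LinearMap.range f) ?_
    intro A
    obtain ⟨M, h1, -, h3⟩ := exists_proj A ⊥ (inf_bot_eq A)
    refine ⟨M, ?_⟩
    apply le_antisymm
    · rintro x ⟨y, rfl⟩
      exact h3 y
    · intro x hx
      exact ⟨x, h1 x hx⟩
  have h2 : #(V →ₗ[F] V) = #(ι → V) := Cardinal.mk_congr (b.constr ℕ).symm.toEquiv
  rw [h2] at h1
  refine h1.trans ?_
  rw [← Cardinal.power_def]
  refine (Cardinal.power_le_power_right (mk_V_le b)).trans ?_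
  rw [← Cardinal.power_mul, Cardinal.mul_eq_self hι]

/-- the coordinate subspace -/
noncomputable def coord {ι : Type u} (b : Basis ι F V) (S : Finset ι) : Submodule F V :=
  Submodule.span F (b '' (S : Set ι))

instance {ι : Type u} (b : Basis ι F V) (S : Finset ι) : FiniteDimensional F (coord b S) :=
  FiniteDimensional.span_of_finite F (S.finite_toSet.image b)

theorem mem_coord {ι : Type u} (b : Basis ι F V) (v : V) : v ∈ coord b (b.repr v).support := by
  unfold coord
  rw [Basis.mem_span_image]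

/-- the shape of the well-founded trees used for closing off -/
def Sh (ι : Type u) (a : Finset ι → ℕ) : Type u := Σ S : Finset ι, Fin (a S)

theorem mk_tree_le {ι : Type u} (hι : ℵ₀ ≤ #ι) : #(WType (Sh ι)) ≤ 2 ^ #ι := by
  have : Infinite ι := Cardinal.infinite_iff.mpr hι
  have h2 : ℵ₀ ≤ (2 : Cardinal.{u}) ^ #ι := aleph0_le_two_power hι
  apply WType.cardinalMk_le_of_le
  have hβ : ∀ a : Finset ι → ℕ, #(Sh ι a) ≤ #ι := by
    intro a
    have : #(Sh ι a) ≤ #(Finset ι × ULift.{u} ℕ) := by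
      refine Cardinal.mk_le_of_injective (f := fun x : Sh ι a => (x.1, ULift.up (x.2 : ℕ))) ?_
      rintro ⟨S, i⟩ ⟨S', i'⟩ h
      simp only [Prod.mk.injEq, ULift.up_inj] at h
      obtain ⟨rfl, h⟩ := h
      exact congrArg (Sigma.mk S) (Fin.ext h)
    refine this.trans ?_
    rw [Cardinal.mk_prod, Cardinal.lift_id, Cardinal.lift_id, Cardinal.mk_finset_of_infinite,
      Cardinal.mk_uLift, Cardinal.mk_nat, Cardinal.lift_aleph0]
    exact (Cardinal.mul_le_max_of_aleph0_le_left hι).trans (max_le le_rfl hι)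
  have hα : #(Finset ι → ℕ) ≤ 2 ^ #ι := by
    have : #(Finset ι → ℕ) = #(Finset ι → ULift.{u} ℕ) :=
      Cardinal.mk_congr (Equiv.arrowCongr (Equiv.refl _) Equiv.ulift.symm)
    rw [this, ← Cardinal.power_def, Cardinal.mk_finset_of_infinite, Cardinal.mk_uLift,
      Cardinal.mk_nat, Cardinal.lift_aleph0]
    exact (Cardinal.power_le_power_right (Cardinal.cantor ℵ₀).le).trans (by
      rw [← Cardinal.power_mul, Cardinal.aleph0_mul_eq hι])
  calc (Cardinal.sum fun a : Finset ι → ℕ => ((2 : Cardinal.{u}) ^ #ι) ^ #(Sh ι a))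
      ≤ Cardinal.sum fun _ : Finset ι → ℕ => (2 : Cardinal.{u}) ^ #ι := by
        apply Cardinal.sum_le_sum
        intro a
        calc ((2 : Cardinal.{u}) ^ #ι) ^ #(Sh ι a) ≤ ((2 : Cardinal.{u}) ^ #ι) ^ #ι :=
              Cardinal.power_le_power_left (by
                intro h
                rw [h] at h2
                exact absurd h2 (not_le.mpr Cardinal.aleph0_pos)) (hβ a)
          _ = 2 ^ #ι := by rw [← Cardinal.power_mul, Cardinal.mul_eq_self hι]
    _ = #(Finset ι → ℕ) * 2 ^ #ι := by rw [Cardinal.sum_const, Cardinal.lift_id, Cardinal.lift_id]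
    _ ≤ 2 ^ #ι * 2 ^ #ι := mul_le_mul' hα le_rfl
    _ = 2 ^ #ι := Cardinal.mul_eq_self h2

end Card

/-! ### Upper bound for the number of maximal filters -/

section Upper

variable {F V : Type u} [Field F] [AddCommGroup V] [Module F V]

/-- `U` is a member of `Φ` that is not in the closure of the finite sets `T S` -/
def Wit {ι : Type u} (b : Basis ι F V) (Φ : Set (Submodule F V))
    (T : Finset ι → Finset (Submodule F V)) (U : Submodule F V) : Prop :=
  U ∈ Φ ∧ ∀ S : Finset ι, ∃ B : Submodule F V,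
    (∀ A ∈ T S, A ⊓ B ⊓ coord b S ≠ ⊥) ∧ U ⊓ B ⊓ coord b S = ⊥

open Classical in
/-- choice of a witness -/
noncomputable def cw {ι : Type u} (b : Basis ι F V) (Φ : Set (Submodule F V))
    (T : Finset ι → Finset (Submodule F V)) : Submodule F V :=
  if h : ∃ U, Wit b Φ T U then Classical.choose h else ⊤

open Classical in
/-- the enumeration of a generating set of the filter -/
noncomputable def en {ι : Type u} (b : Basis ι F V) (Φ : Set (Submodule F V)) :
    WType (Sh ι) → Submodule F V :=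
  WType.elim _ fun x =>
    cw b Φ fun S => (Finset.univ : Finset (Fin (x.1 S))).image fun i => x.2 ⟨S, i⟩

theorem cw_mem {ι : Type u} (b : Basis ι F V) {Φ : Set (Submodule F V)} (hΦ : IsFlt F V Φ)
    (T : Finset ι → Finset (Submodule F V)) : cw b Φ T ∈ Φ := by
  unfold cw
  split
  · rename_i h
    exact (Classical.choose_spec h).1
  · exact hΦ.1

theorem en_mem {ι : Type u} (b : Basis ι F V) {Φ : Set (Submodule F V)} (hΦ : IsFlt F V Φ)
    (w : WType (Sh ι)) : en b Φ w ∈ Φ := by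
  cases w with
  | mk a f => exact cw_mem b hΦ _

open Classical in
theorem en_mk {ι : Type u} (b : Basis ι F V) (Φ : Set (Submodule F V))
    (a : Finset ι → ℕ) (f : Sh ι a → WType (Sh ι)) :
    en b Φ (WType.mk a f) =
      cw b Φ fun S => (Finset.univ : Finset (Fin (a S))).image fun i => en b Φ (f ⟨S, i⟩) := rfl

theorem mem_iff {ι : Type u} (b : Basis ι F V) {Φ : Set (Submodule F V)} (hΦ : IsMaxFlt F V Φ)
    (W : Submodule F V) : W ∈ Φ ↔ ∀ w, en b Φ w ⊓ W ≠ ⊥ := by
  classical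
  constructor
  · intro hW w
    exact hΦ.1.inf_ne_bot (en_mem b hΦ.1 w) hW
  · intro h
    by_contra hW
    obtain ⟨U0, hU0, hU0W⟩ := hΦ.exists_disjoint hW
    have h1 : ∀ S : Finset ι, ∃ T : Finset (Submodule F V),
        (T : Set (Submodule F V)) ⊆ {U | U ∈ Set.range (en b Φ) ∧ U ⊓ W ⊓ coord b S ≠ ⊥} ∧
        ∀ A ∈ {U | U ∈ Set.range (en b Φ) ∧ U ⊓ W ⊓ coord b S ≠ ⊥}, ∀ B : Submodule F V,
          A ⊓ B ⊓ coord b S = ⊥ → ∃ A' ∈ T, A' ⊓ B ⊓ coord b S = ⊥ :=
      fun S => fin_lemma' (coord b S) _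
    choose T hT1 hT2 using h1
    -- enumerate the finite sets `T S`
    have h2 : ∀ S : Finset ι, ∃ (k : ℕ) (g : Fin k → WType (Sh ι)),
        (Finset.univ : Finset (Fin k)).image (fun i => en b Φ (g i)) = T S := by
      intro S
      have h3 : ∀ X : {X // X ∈ T S}, ∃ w, en b Φ w = X.1 := fun X => (hT1 S X.2).1
      choose g hg using h3
      refine ⟨(T S).card, fun i => g ((T S).equivFin.symm i), ?_⟩
      ext X
      simp only [Finset.mem_image, Finset.mem_univ, true_and]
      constructor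
      · rintro ⟨i, rfl⟩
        rw [hg]
        exact ((T S).equivFin.symm i).2
      · intro hX
        exact ⟨(T S).equivFin ⟨X, hX⟩, by rw [hg]; simp⟩
    choose a g hg using h2
    have hwit : Wit b Φ T U0 := by
      refine ⟨hU0, fun S => ⟨W, fun A hA => (hT1 S hA).2, ?_⟩⟩
      rw [hU0W, bot_inf_eq]
    let w : WType (Sh ι) := WType.mk a fun x => g x.1 x.2
    have hw : en b Φ w = cw b Φ T := by
      change en b Φ (WType.mk a fun x => g x.1 x.2) = _
      rw [en_mk]
      congr 1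
      funext S
      exact hg S
    have hspec : Wit b Φ T (cw b Φ T) := by
      unfold cw
      rw [dif_pos ⟨U0, hwit⟩]
      exact Classical.choose_spec (⟨U0, hwit⟩ : ∃ U, Wit b Φ T U)
    rw [← hw] at hspec
    obtain ⟨x, hx, hx0⟩ := Submodule.exists_mem_ne_zero_of_ne_bot (h w)
    have hS : en b Φ w ⊓ W ⊓ coord b (b.repr x).support ≠ ⊥ := by
      intro hb
      have : x ∈ en b Φ w ⊓ W ⊓ coord b (b.repr x).support := ⟨hx, mem_coord b x⟩
      rw [hb] at this
      exact hx0 ((Submodule.mem_bot F).mp this)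
    obtain ⟨B, hB1, hB2⟩ := hspec.2 (b.repr x).support
    obtain ⟨A', hA', hA'B⟩ := hT2 (b.repr x).support (en b Φ w) ⟨⟨w, rfl⟩, hS⟩ B hB2
    exact hB1 A' hA' hA'B

theorem mk_maxFlt_le {ι : Type u} (b : Basis ι F V) (hι : ℵ₀ ≤ #ι) :
    #{Φ : Set (Submodule F V) // IsMaxFlt F V Φ} ≤ #F ^ (2 ^ #ι : Cardinal.{u}) := by
  have h1 : #{Φ : Set (Submodule F V) // IsMaxFlt F V Φ} ≤
      #(WType (Sh ι) → Submodule F V) := by
    refine Cardinal.mk_le_of_injective
      (f := fun Φ : {Φ : Set (Submodule F V) // IsMaxFlt F V Φ} => en b Φ.1) ?_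
    rintro ⟨Φ, hΦ⟩ ⟨Ψ, hΨ⟩ h
    have h : en b Φ = en b Ψ := h
    apply Subtype.ext
    ext W
    change W ∈ Φ ↔ W ∈ Ψ
    rw [mem_iff b hΦ, mem_iff b hΨ, h]
  refine h1.trans ?_
  rw [← Cardinal.power_def]
  have hF : (1 : Cardinal.{u}) ≤ #F := (by norm_num : (1 : Cardinal.{u}) ≤ 2).trans two_le_mk_field
  calc #(Submodule F V) ^ #(WType (Sh ι)) ≤ (#F ^ #ι) ^ #(WType (Sh ι)) :=
        Cardinal.power_le_power_right (mk_submodule_le b hι)
    _ ≤ (#F ^ #ι) ^ (2 ^ #ι : Cardinal.{u}) :=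
        Cardinal.power_le_power_left (Cardinal.power_ne_zero _ (by
          intro h0
          rw [h0] at hF
          exact absurd hF (by norm_num))) (mk_tree_le hι)
    _ = #F ^ (2 ^ #ι : Cardinal.{u}) := by
        rw [← Cardinal.power_mul, Cardinal.mul_eq_right (aleph0_le_two_power hι)
          (Cardinal.cantor _).le (by
            intro h0
            rw [h0] at hι
            exact absurd hι (not_le.mpr Cardinal.aleph0_pos))]

theorem mk_maxIdl_le {ι : Type u} (b : Basis ι F V) (hι : ℵ₀ ≤ #ι) :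
    #{Φ : Set (Submodule F V) // IsMaxIdl F V Φ} ≤ 2 ^ (#F ^ #ι : Cardinal.{u}) := by
  refine (Cardinal.mk_subtype_le _).trans ?_
  rw [Cardinal.mk_set]
  exact Cardinal.power_le_power_left two_ne_zero (mk_submodule_le b hι)

end Upper

/-! ### An independent family for filters -/

section FamFilter

variable {F K : Type u} [Field F]

open Classical in
/-- trace of a set on a finite set -/
noncomputable def tr (A : Set K) (S : Finset K) : Finset K := S.filter (· ∈ A)

open Classical in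
/-- the subspaces of the independent family -/
noncomputable def UF (A : Set K) (l : F) : Submodule F ((Finset K × Finset (Finset K)) →₀ F) where
  carrier := {v | ∀ S x, tr A S ∉ x → v (S, insert (tr A S) x) = l * v (S, x)}
  add_mem' := by
    intro v w hv hw S x hx
    simp only [Finsupp.add_apply, hv S x hx, hw S x hx]
    ring
  zero_mem' := by
    intro S x _
    simp
  smul_mem' := by
    intro c v hv S x hx
    simp only [Finsupp.smul_apply, hv S x hx, smul_eq_mul]
    ring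

theorem UF_disjoint (A : Set K) (a b : F) (hab : a ≠ b) : UF A a ⊓ UF A b = ⊥ := by
  classical
  rw [Submodule.eq_bot_iff]
  rintro v ⟨h1, h2⟩
  have h0 : ∀ S x, tr A S ∉ x → v (S, x) = 0 := by
    intro S x hx
    have e1 := h1 S x hx
    have e2 := h2 S x hx
    rw [e1] at e2
    have e3 : (a - b) * v (S, x) = 0 := by
      rw [sub_mul, e2, sub_self]
    exact (mul_eq_zero.mp e3).resolve_left (sub_ne_zero.mpr hab)
  ext ⟨S, x⟩
  by_cases hx : tr A S ∈ x
  · have e := h1 S (x.erase (tr A S)) (Finset.notMem_erase _ _)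
    rw [Finset.insert_erase hx, h0 S _ (Finset.notMem_erase _ _), mul_zero] at e
    simpa using e
  · simpa using h0 S x hx

theorem exists_separating (s : Finset (Set K)) :
    ∃ S : Finset K, ∀ A ∈ s, ∀ B ∈ s, tr A S = tr B S → A = B := by
  classical
  have h : ∀ A B : Set K, ∃ S : Finset K, tr A S = tr B S → A = B := by
    intro A B
    by_cases hAB : A = B
    · exact ⟨∅, fun _ => hAB⟩
    · have : ∃ x, ¬ (x ∈ A ↔ x ∈ B) := by
        by_contra hcon
        push Not at hcon
        exact hAB (Set.ext hcon)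
      obtain ⟨x, hx⟩ := this
      refine ⟨{x}, fun htr => absurd ?_ hx⟩
      have := congrArg (fun T : Finset K => x ∈ T) htr
      simpa [tr] using this
  choose S hS using h
  refine ⟨s.biUnion fun A => s.biUnion fun B => S A B, ?_⟩
  intro A hA B hB htr
  apply hS
  ext x
  have h1 := congrArg (fun T : Finset K => x ∈ T) htr
  simp only [tr, Finset.mem_filter, eq_iff_iff] at h1 ⊢
  constructor
  · rintro ⟨h2, h3⟩
    refine ⟨h2, (h1.mp ⟨?_, h3⟩).2⟩
    exact Finset.mem_biUnion.mpr ⟨A, hA, Finset.mem_biUnion.mpr ⟨B, hB, h2⟩⟩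
  · rintro ⟨h2, h3⟩
    refine ⟨h2, (h1.mpr ⟨?_, h3⟩).2⟩
    exact Finset.mem_biUnion.mpr ⟨A, hA, Finset.mem_biUnion.mpr ⟨B, hB, h2⟩⟩

theorem UF_indep (s : Finset (Set K)) (φ : Set K → F) : (s.inf fun A => UF A (φ A)) ≠ ⊥ := by
  classical
  obtain ⟨S, hS⟩ := exists_separating s
  let c : Finset K → F := fun T => if h : ∃ A ∈ s, tr A S = T then φ (Classical.choose h) else 0
  have hc : ∀ A ∈ s, c (tr A S) = φ A := by
    intro A hA
    have h : ∃ B ∈ s, tr B S = tr A S := ⟨A, hA, rfl⟩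
    have h1 := Classical.choose_spec h
    have h2 : Classical.choose h = A := hS _ h1.1 A hA h1.2
    change (if h : ∃ B ∈ s, tr B S = tr A S then φ (Classical.choose h) else 0) = φ A
    rw [dif_pos h, h2]
  let v : (Finset K × Finset (Finset K)) →₀ F :=
    Finsupp.onFinset ((S.powerset.powerset).image fun x => (S, x))
      (fun i => if i.1 = S ∧ i.2 ⊆ S.powerset then ∏ T ∈ i.2, c T else 0) (by
        rintro ⟨S', x⟩ h
        by_cases hh : S' = S ∧ x ⊆ S.powerset
        · obtain ⟨rfl, hx⟩ := hh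
          exact Finset.mem_image.mpr ⟨x, Finset.mem_powerset.mpr hx, rfl⟩
        · exact absurd (if_neg hh) h)
  have hv : ∀ S' x, v (S', x) = if S' = S ∧ x ⊆ S.powerset then ∏ T ∈ x, c T else 0 :=
    fun _ _ => rfl
  have hmem : v ∈ s.inf fun A => UF A (φ A) := by
    rw [Submodule.mem_finsetInf]
    intro A hA S' x hx
    rw [hv, hv]
    by_cases hS' : S' = S
    · subst hS'
      have htr : tr A S' ∈ S'.powerset := Finset.mem_powerset.mpr (Finset.filter_subset _ _)
      by_cases hx' : x ⊆ S'.powerset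
      · rw [if_pos ⟨rfl, Finset.insert_subset htr hx'⟩, if_pos ⟨rfl, hx'⟩,
          Finset.prod_insert hx, hc A hA]
      · rw [if_neg (fun h => hx' ((Finset.subset_insert _ _).trans h.2)),
          if_neg (fun h => hx' h.2), mul_zero]
    · rw [if_neg (fun h => hS' h.1), if_neg (fun h => hS' h.1), mul_zero]
  intro hbot
  rw [hbot, Submodule.mem_bot] at hmem
  have h1 : v (S, ∅) = 1 := by
    rw [hv, if_pos ⟨rfl, Finset.empty_subset _⟩, Finset.prod_empty]
  rw [hmem] at h1
  exact zero_ne_one h1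

end FamFilter

/-! ### An independent family for ideals -/

section FamIdeal

variable {F K : Type u} [Field F]

open Classical in
/-- the operators of the independent family -/
noncomputable def PI (f : K → F) : ((Finset (FreeMonoid K) × List (FreeMonoid K)) →₀ F) →ₗ[F]
    ((Finset (FreeMonoid K) × List (FreeMonoid K)) →₀ F) :=
  Finsupp.linearCombination F fun i => ∑ q ∈ i.1, Finsupp.single (i.1, q :: i.2)
    (FreeMonoid.lift f q)

theorem exists_interp (s s' : Finset (K → F)) (hss : Disjoint s s') :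
    ∃ h : FreeMonoid K →₀ F, (∀ f ∈ s, (∑ q ∈ h.support, h q * FreeMonoid.lift f q) = 1) ∧
      ∀ f ∈ s', (∑ q ∈ h.support, h q * FreeMonoid.lift f q) = 0 := by
  classical
  -- evaluation map
  let t : Finset (K → F) := s ∪ s'
  let Ψ : (FreeMonoid K →₀ F) →ₗ[F] (t → F) :=
    LinearMap.pi fun f => Finsupp.linearCombination F fun q => FreeMonoid.lift f.1 q
  have hΨ : ∀ (h : FreeMonoid K →₀ F) (f : t), Ψ h f = ∑ q ∈ h.support, h q *
      FreeMonoid.lift f.1 q := by
    intro h f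
    change Finsupp.linearCombination F (fun q => FreeMonoid.lift f.1 q) h = _
    rw [Finsupp.linearCombination_apply]
    rfl
  have hli : LinearIndependent F (fun f : K → F => (FreeMonoid.lift f : FreeMonoid K → F)) :=
    (linearIndependent_monoidHom (FreeMonoid K) F).comp (fun f : K → F => FreeMonoid.lift f)
      FreeMonoid.lift.injective
  have hsurj : LinearMap.range Ψ = ⊤ := by
    by_contra hne
    obtain ⟨ψ, hψ0, hψ⟩ := Submodule.exists_le_ker_of_lt_top _ (lt_top_iff_ne_top.mpr hne)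
    apply hψ0
    -- coefficients of `ψ`
    let c : t → F := fun f => ψ (Pi.single f 1)
    have hψc : ∀ x : t → F, ψ x = ∑ f, x f * c f := by
      intro x
      conv_lhs => rw [← Finset.univ_sum_single x]
      rw [map_sum]
      refine Finset.sum_congr rfl fun f _ => ?_
      have : (Pi.single f (x f) : t → F) = x f • Pi.single f 1 := by
        rw [← Pi.single_smul, smul_eq_mul, mul_one]
      rw [this, map_smul, smul_eq_mul]
    have h0 : ∀ q : FreeMonoid K, ∑ f : t, c f * FreeMonoid.lift f.1 q = 0 := by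
      intro q
      have h1 : Ψ (Finsupp.single q 1) ∈ LinearMap.ker ψ := hψ ⟨_, rfl⟩
      rw [LinearMap.mem_ker, hψc] at h1
      rw [← h1]
      refine Finset.sum_congr rfl fun f _ => ?_
      have : Ψ (Finsupp.single q 1) f = FreeMonoid.lift f.1 q := by
        change Finsupp.linearCombination F (fun q => FreeMonoid.lift f.1 q)
          (Finsupp.single q 1) = _
        rw [Finsupp.linearCombination_single, one_smul]
      rw [this, mul_comm]
    have hli' := hli.comp (fun f : t => f.1) Subtype.val_injective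
    rw [Fintype.linearIndependent_iff] at hli'
    have hc := hli' c (by
      funext q
      simpa using h0 q)
    refine LinearMap.ext fun x => ?_
    rw [hψc]
    simp [hc]
  have hmem : (fun f : t => if f.1 ∈ s then (1 : F) else 0) ∈ LinearMap.range Ψ := by
    rw [hsurj]
    trivial
  obtain ⟨h, hh⟩ := hmem
  refine ⟨h, ?_, ?_⟩
  · intro f hf
    have hft : f ∈ t := Finset.mem_union_left _ hf
    have := hΨ h ⟨f, hft⟩
    rw [hh] at this
    simpa [hf] using this.symm
  · intro f hf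
    have hft : f ∈ t := Finset.mem_union_right _ hf
    have hfs : f ∉ s := fun hfs => Finset.disjoint_left.mp hss hfs hf
    have := hΨ h ⟨f, hft⟩
    rw [hh] at this
    simpa [hfs] using this.symm

theorem PI_indep (s s' : Finset (K → F)) (hss : Disjoint s s') :
    (s.sup fun f => LinearMap.range (LinearMap.id - PI f)) ⊔
      (s'.sup fun f => LinearMap.range (PI f)) ≠ ⊤ := by
  classical
  obtain ⟨h, hh1, hh2⟩ := exists_interp s s' hss
  let ξ : ((Finset (FreeMonoid K) × List (FreeMonoid K)) →₀ F) →ₗ[F] F :=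
    Finsupp.linearCombination F fun i => if i.1 = h.support then (i.2.map h).prod else 0
  have hξ : ∀ i : Finset (FreeMonoid K) × List (FreeMonoid K), ∀ c : F,
      ξ (Finsupp.single i c) = c * if i.1 = h.support then (i.2.map h).prod else 0 := by
    intro i c
    change Finsupp.linearCombination F _ (Finsupp.single i c) = _
    rw [Finsupp.linearCombination_single, smul_eq_mul]
  have hP : ∀ f : K → F, ∀ i : Finset (FreeMonoid K) × List (FreeMonoid K),
      ξ (PI f (Finsupp.single i 1)) =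
        (∑ q ∈ h.support, h q * FreeMonoid.lift f q) *
          if i.1 = h.support then (i.2.map h).prod else 0 := by
    intro f i
    have e1 : PI f (Finsupp.single i 1) = ∑ q ∈ i.1, Finsupp.single (i.1, q :: i.2)
        (FreeMonoid.lift f q) := by
      unfold PI
      rw [Finsupp.linearCombination_single, one_smul]
    rw [e1, map_sum]
    by_cases hi : i.1 = h.support
    · rw [if_pos hi, Finset.sum_mul, hi]
      refine Finset.sum_congr rfl fun q _ => ?_
      rw [hξ, if_pos rfl, List.map_cons, List.prod_cons]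
      ring
    · rw [if_neg hi, mul_zero]
      refine Finset.sum_eq_zero fun q _ => ?_
      rw [hξ, if_neg hi, mul_zero]
  have h1 : ∀ f ∈ s, ξ ∘ₗ (LinearMap.id - PI f) = 0 := by
    intro f hf
    ext i
    simp only [LinearMap.comp_apply, LinearMap.sub_apply, LinearMap.id_apply, map_sub,
      Finsupp.lsingle_apply, LinearMap.zero_apply]
    rw [hP, hh1 f hf, hξ, sub_self]
  have h2 : ∀ f ∈ s', ξ ∘ₗ PI f = 0 := by
    intro f hf
    ext i
    simp only [LinearMap.comp_apply, Finsupp.lsingle_apply, LinearMap.zero_apply]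
    rw [hP, hh2 f hf, zero_mul]
  intro htop
  have h3 : (s.sup fun f => LinearMap.range (LinearMap.id - PI f)) ⊔
      (s'.sup fun f => LinearMap.range (PI f)) ≤ LinearMap.ker ξ := by
    refine sup_le (Finset.sup_le fun f hf => ?_) (Finset.sup_le fun f hf => ?_)
    · rintro _ ⟨x, rfl⟩
      exact LinearMap.congr_fun (h1 f hf) x
    · rintro _ ⟨x, rfl⟩
      exact LinearMap.congr_fun (h2 f hf) x
  rw [htop] at h3
  have h4 : Finsupp.single (h.support, ([] : List (FreeMonoid K))) (1 : F) ∈ LinearMap.ker ξ :=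
    h3 trivial
  rw [LinearMap.mem_ker, hξ] at h4
  simp at h4

theorem PI_sup (f : K → F) :
    LinearMap.range (LinearMap.id - PI f) ⊔ LinearMap.range (PI f) = ⊤ := by
  rw [eq_top_iff]
  intro x _
  have : x = (LinearMap.id - PI f : _ →ₗ[F] _) x + PI f x := by simp
  rw [this]
  exact Submodule.add_mem_sup ⟨x, rfl⟩ ⟨x, rfl⟩

end FamIdeal

/-! ### The main theorem -/

section Main

variable {F V V' : Type u} [Field F] [AddCommGroup V] [Module F V] [AddCommGroup V'] [Module F V']

theorem map_sup_ne_top (e : V' ≃ₗ[F] V) {X : Submodule F V'} (hX : X ≠ ⊤) :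
    Submodule.orderIsoMapComap e X ≠ ⊤ := by
  intro h
  apply hX
  apply (Submodule.orderIsoMapComap e).injective
  rw [h, map_top]

/-- Let `F` be a field and `V` a vector space over `F` of infinite dimension `κ`. The lattice of
subspaces of `V` has exactly `2 ^ (|F| ^ κ)` maximal ideals and exactly `|F| ^ (2 ^ κ)` maximal
filters. -/
theorem result (F V : Type u) [Field F] [AddCommGroup V] [Module F V]
    (hV : ℵ₀ ≤ Module.rank F V) :
    #{I : Set (Submodule F V) // IsMaxIdl F V I} = 2 ^ (#F ^ Module.rank F V) ∧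
    #{Φ : Set (Submodule F V) // IsMaxFlt F V Φ} = #F ^ (2 ^ Module.rank F V : Cardinal.{u}) := by
  classical
  let b := Basis.ofVectorSpace F V
  let K : Type u := Basis.ofVectorSpaceIndex F V
  have hK : #K = Module.rank F V := b.mk_eq_rank''
  rw [← hK] at hV ⊢
  have : Infinite K := Cardinal.infinite_iff.mpr hV
  refine ⟨le_antisymm (mk_maxIdl_le b hV) ?_, le_antisymm (mk_maxFlt_le b hV) ?_⟩
  · -- ideals
    have hcard : #(Finset (FreeMonoid K) × List (FreeMonoid K)) = #K := by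
      have h1 : #(FreeMonoid K) = #K := Cardinal.mk_list_eq_mk K
      have : Infinite (FreeMonoid K) := Cardinal.infinite_iff.mpr (h1 ▸ hV)
      rw [Cardinal.mk_prod, Cardinal.lift_id, Cardinal.lift_id, Cardinal.mk_finset_of_infinite,
        Cardinal.mk_list_eq_mk, h1, Cardinal.mul_eq_self hV]
    obtain ⟨eq⟩ := Cardinal.eq.mp hcard
    let e : ((Finset (FreeMonoid K) × List (FreeMonoid K)) →₀ F) ≃ₗ[F] V :=
      (Finsupp.domLCongr eq).trans b.repr.symm
    rw [Cardinal.power_def]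
    refine two_power_le (T := K → F)
      (fun f => Submodule.orderIsoMapComap e (LinearMap.range (LinearMap.id - PI f)))
      (fun f => Submodule.orderIsoMapComap e (LinearMap.range (PI f))) ?_ ?_
    · intro f
      rw [← map_sup, PI_sup, map_top]
    · intro s s' hss
      have h := map_sup_ne_top e (PI_indep s s' hss)
      rw [map_sup, map_finset_sup, map_finset_sup] at h
      exact h
  · -- filters
    have hcard : #(Finset K × Finset (Finset K)) = #K := by
      rw [Cardinal.mk_prod, Cardinal.lift_id, Cardinal.lift_id, Cardinal.mk_finset_of_infinite,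
        Cardinal.mk_finset_of_infinite, Cardinal.mk_finset_of_infinite, Cardinal.mul_eq_self hV]
    obtain ⟨eq⟩ := Cardinal.eq.mp hcard
    let e : ((Finset K × Finset (Finset K)) →₀ F) ≃ₗ[F] V :=
      (Finsupp.domLCongr eq).trans b.repr.symm
    rw [← Cardinal.mk_set]
    refine power_le (T := Set K) (Λ := F)
      (fun A l => Submodule.orderIsoMapComap e (UF A l)) ?_ ?_
    · intro A a b hab
      rw [← map_inf, UF_disjoint A a b hab, map_bot]
    · intro s φ h
      apply UF_indep s φ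
      apply (Submodule.orderIsoMapComap e).injective
      rw [map_finset_inf, map_bot]
      exact h

end Main

end Pool.Agent.Results.MP_f0da7f_al.SubspaceLattice
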